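import Mathlib

/-!
Norms on integral group rings of groups: the sup norm and the sum norm of the coefficients.
-/

namespace Q33.SC

set_option linter.unusedSectionVars false

variable {Z : Type*} [CommGroup Z]

/-- sup norm of the coefficients -/
noncomputable def NS (f : MonoidAlgebra ℤ Z) : ℕ :=
  f.coeff.support.sup (fun z => (f.coeff z).natAbs)

/-- sum norm of the coefficients -/
noncomputable def N1 (f : MonoidAlgebra ℤ Z) : ℕ :=
  ∑ z ∈ f.coeff.support, (f.coeff z).natAbs

theorem le_NS (f : MonoidAlgebra ℤ Z) (z : Z) : (f.coeff z).natAbs ≤ NS f := by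
  by_cases h : z ∈ f.coeff.support
  · exact Finset.le_sup (f := fun z => (f.coeff z).natAbs) h
  · rw [Finsupp.notMem_support_iff] at h
    simp [h]

theorem NS_le {f : MonoidAlgebra ℤ Z} {B : ℕ} (h : ∀ z, (f.coeff z).natAbs ≤ B) : NS f ≤ B :=
  Finset.sup_le fun z _ => h z

theorem NS_zero : NS (0 : MonoidAlgebra ℤ Z) = 0 := by
  apply Nat.le_zero.mp
  apply NS_le
  intro z
  simp

theorem NS_pos {f : MonoidAlgebra ℤ Z} (h : f ≠ 0) : 1 ≤ NS f := by
  by_contra hc
  apply h
  ext z
  have := le_NS f z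
  have h0 : (f.coeff z).natAbs = 0 := by omega
  simpa using h0

theorem NS_add (f g : MonoidAlgebra ℤ Z) : NS (f + g) ≤ NS f + NS g := by
  apply NS_le
  intro z
  rw [MonoidAlgebra.coeff_add, Finsupp.add_apply]
  exact (Int.natAbs_add_le _ _).trans (Nat.add_le_add (le_NS f z) (le_NS g z))

theorem NS_neg (f : MonoidAlgebra ℤ Z) : NS (-f) = NS f := by
  have key : ∀ f : MonoidAlgebra ℤ Z, NS (-f) ≤ NS f := by
    intro f
    apply NS_le
    intro z
    rw [MonoidAlgebra.coeff_neg, Finsupp.neg_apply, Int.natAbs_neg]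
    exact le_NS f z
  apply le_antisymm (key f)
  simpa using key (-f)

theorem NS_sub (f g : MonoidAlgebra ℤ Z) : NS (f - g) ≤ NS f + NS g := by
  rw [sub_eq_add_neg]
  exact (NS_add _ _).trans (by rw [NS_neg])

theorem NS_nsmul (n : ℕ) (f : MonoidAlgebra ℤ Z) : NS (n • f) = n * NS f := by
  rcases Nat.eq_zero_or_pos n with rfl | hn
  · simp [NS_zero]
  have hc : ∀ z, ((n • f).coeff z).natAbs = n * (f.coeff z).natAbs := by
    intro z
    have : (n • f).coeff z = (n : ℤ) * f.coeff z := by
      rw [MonoidAlgebra.coeff_smul]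
      simp
    rw [this, Int.natAbs_mul]
    simp
  apply le_antisymm
  · apply NS_le
    intro z
    rw [hc]
    exact Nat.mul_le_mul_left _ (le_NS f z)
  · by_cases hf : f = 0
    · subst hf
      simp [NS_zero]
    · have hne : f.coeff.support.Nonempty := by
        rw [Finsupp.support_nonempty_iff]
        intro h
        apply hf
        ext z
        simp [h]
      obtain ⟨z, _, hz⟩ := Finset.exists_mem_eq_sup f.coeff.support hne
        (fun z => (f.coeff z).natAbs)
      have h2 : NS f = (f.coeff z).natAbs := hz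
      rw [h2, ← hc]
      exact le_NS _ z

theorem NS_single_mul (w : Z) (f : MonoidAlgebra ℤ Z) :
    NS (MonoidAlgebra.single w 1 * f) ≤ NS f := by
  apply NS_le
  intro z
  rw [MonoidAlgebra.coeff_single_mul_apply]
  simp only [one_mul]
  exact le_NS _ _

theorem N1_zero : N1 (0 : MonoidAlgebra ℤ Z) = 0 := by
  simp [N1]

theorem N1_eq_sum {f : MonoidAlgebra ℤ Z} {s : Finset Z} (h : f.coeff.support ⊆ s) :
    N1 f = ∑ z ∈ s, (f.coeff z).natAbs := by
  apply Finset.sum_subset h
  intro z _ hz
  rw [Finsupp.notMem_support_iff] at hz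
  simp [hz]

theorem N1_add (f g : MonoidAlgebra ℤ Z) : N1 (f + g) ≤ N1 f + N1 g := by
  classical
  set s := f.coeff.support ∪ g.coeff.support with hs
  have h1 : (f + g).coeff.support ⊆ s := by
    rw [MonoidAlgebra.coeff_add]
    exact Finsupp.support_add
  rw [N1_eq_sum h1, N1_eq_sum (f := f) (s := s) Finset.subset_union_left,
    N1_eq_sum (f := g) (s := s) Finset.subset_union_right, ← Finset.sum_add_distrib]
  apply Finset.sum_le_sum
  intro z _
  rw [MonoidAlgebra.coeff_add, Finsupp.add_apply]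
  exact Int.natAbs_add_le _ _

theorem N1_single (w : Z) (c : ℤ) : N1 (MonoidAlgebra.single w c) ≤ c.natAbs := by
  classical
  have h1 : (MonoidAlgebra.single w c : MonoidAlgebra ℤ Z).coeff.support ⊆ {w} := by
    rw [MonoidAlgebra.coeff_single]
    exact Finsupp.support_single_subset
  rw [N1_eq_sum h1, Finset.sum_singleton]
  simp

theorem NS_mul (f h : MonoidAlgebra ℤ Z) : NS (f * h) ≤ N1 f * NS h := by
  apply NS_le
  intro z
  rw [MonoidAlgebra.coeff_mul_apply_left, Finsupp.sum]
  refine (Int.natAbs_sum_le _ _).trans ?_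
  rw [N1, Finset.sum_mul]
  apply Finset.sum_le_sum
  intro a _
  rw [Int.natAbs_mul]
  exact Nat.mul_le_mul_left _ (le_NS h _)

end Q33.SC
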