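import Mathlib
import Pool.Agent.Q33.SC.Norm

/-!
A crossed homomorphism `D` from a group `P` to the group ring of a commutative group `Z`, and
the choice of conjugates that makes balls of the word metric miss powers of an element `c`.
-/

namespace Q33.SC

open scoped commutatorElement

variable {P Z : Type*} [Group P] [CommGroup Z]

/-- a homomorphism to a commutative group together with a crossed homomorphism over it. -/
structure Crossed (P Z : Type*) [Group P] [CommGroup Z] where
  v : P →* Z
  D : P → MonoidAlgebra ℤ Z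
  D_mul : ∀ x y, D (x * y) = D x + MonoidAlgebra.single (v x) 1 * D y

namespace Crossed

variable (d : Crossed P Z)

theorem D_one : d.D 1 = 0 := by
  have h := d.D_mul 1 1
  rw [mul_one, map_one, ← MonoidAlgebra.one_def, one_mul] at h
  exact left_eq_add.mp h

theorem D_inv (x : P) : d.D x⁻¹ = -(MonoidAlgebra.single (d.v x)⁻¹ 1 * d.D x) := by
  have h := d.D_mul x⁻¹ x
  rw [inv_mul_cancel, D_one, map_inv] at h
  exact eq_neg_of_add_eq_zero_left h.symm

theorem NS_D_inv (x : P) : NS (d.D x⁻¹) ≤ NS (d.D x) := by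
  rw [D_inv, NS_neg]
  exact NS_single_mul _ _

theorem D_mul_of_ker {x : P} (h : d.v x = 1) (y : P) : d.D (x * y) = d.D x + d.D y := by
  rw [d.D_mul, h, ← MonoidAlgebra.one_def, one_mul]

theorem D_pow {c : P} (h : d.v c = 1) (n : ℕ) : d.D (c ^ n) = n • d.D c := by
  induction n with
  | zero => simp [D_one]
  | succ n ih =>
    rw [pow_succ', d.D_mul_of_ker h, ih, succ_nsmul']

theorem D_conj {c : P} (h : d.v c = 1) (n : ℕ) (p : P) :
    d.D (c ^ n * p * (c ^ n)⁻¹) =
      d.D p + n • ((1 - MonoidAlgebra.single (d.v p) 1) * d.D c) := by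
  have hv : d.v (c ^ n) = 1 := by rw [map_pow, h, one_pow]
  rw [mul_assoc, d.D_mul_of_ker hv, d.D_mul, d.D_inv, hv, inv_one, ← MonoidAlgebra.one_def,
    one_mul, d.D_pow h, sub_mul, one_mul, mul_neg, mul_smul_comm, nsmul_sub]
  abel

theorem v_of_commutator {x : P} (h : x ∈ commutator P) : d.v x = 1 := by
  have : commutator P ≤ d.v.ker := Abelianization.commutator_subset_ker d.v
  exact this h

theorem D_derived_two {x : P} (h : x ∈ derivedSeries P 2) : d.D x = 0 ∧ d.v x = 1 := by
  have h1 : derivedSeries P 1 = commutator P := by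
    rw [derivedSeries_one]
  have hk : ∀ y ∈ derivedSeries P 1, d.v y = 1 := by
    intro y hy
    rw [h1] at hy
    exact d.v_of_commutator hy
  have h2 : x ∈ ⁅derivedSeries P 1, derivedSeries P 1⁆ := by
    rw [← derivedSeries_succ]; exact h
  have key : ⁅derivedSeries P 1, derivedSeries P 1⁆ ≤
      ({ carrier := {y | d.D y = 0 ∧ d.v y = 1}
         one_mem' := ⟨d.D_one, map_one _⟩
         mul_mem' := by
           rintro a b ⟨ha, ha'⟩ ⟨hb, hb'⟩
           refine ⟨?_, ?_⟩
           · rw [d.D_mul_of_ker ha', ha, hb, add_zero]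
           · rw [map_mul, ha', hb', one_mul]
         inv_mem' := by
           rintro a ⟨ha, ha'⟩
           refine ⟨?_, ?_⟩
           · rw [d.D_inv, ha, mul_zero, neg_zero]
           · rw [map_inv, ha', inv_one] } : Subgroup P) := by
    rw [Subgroup.commutator_le]
    intro a ha b hb
    have ha' := hk a ha
    have hb' := hk b hb
    have hai : d.v a⁻¹ = 1 := by rw [map_inv, ha', inv_one]
    refine ⟨?_, ?_⟩
    · change d.D (a * b * a⁻¹ * b⁻¹) = 0
      have h3 : d.v (a * b * a⁻¹) = 1 := by simp [ha', hb']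
      have h4 : d.v (a * b) = 1 := by simp [ha', hb']
      rw [d.D_mul_of_ker h3, d.D_mul_of_ker h4, d.D_mul_of_ker ha', d.D_inv, d.D_inv, ha', hb',
        inv_one, ← MonoidAlgebra.one_def, one_mul, one_mul]
      abel
    · change d.v ⁅a, b⁆ = 1
      rw [map_commutatorElement, ha', hb']
      simp
  exact key h2

/-- D is constant on cosets of the second derived subgroup. -/
theorem D_eq_of_mem {x y : P} (h : x⁻¹ * y ∈ derivedSeries P 2) : d.D y = d.D x := by
  have h1 : y = x * (x⁻¹ * y) := by group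
  rw [h1, d.D_mul, (d.D_derived_two h).1, mul_zero, add_zero]

/-- Decomposition of the value of `D` on a word. -/
theorem decomp (X : Set P) (B : ℕ) (hX : ∀ x ∈ X, NS (d.D x) ≤ B) (g : ℕ → P) (m : ℕ)
    (l : List P) (hl : ∀ z ∈ l, (z ∈ X ∨ z⁻¹ ∈ X) ∨ ∃ N < m, z = g N ∨ z⁻¹ = g N) :
    ∃ (e : MonoidAlgebra ℤ Z) (L : ℕ → MonoidAlgebra ℤ Z), NS e ≤ l.length * B ∧
      ∑ N ∈ Finset.range m, N1 (L N) ≤ l.length ∧
      d.D l.prod = e + ∑ N ∈ Finset.range m, L N * d.D (g N) := by
  classical
  induction l using List.reverseRecOn with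
  | nil =>
    refine ⟨0, fun _ => 0, ?_, ?_, ?_⟩
    · simp [NS_zero]
    · simp [N1_zero]
    · simp [D_one]
  | append_singleton l z ih =>
    obtain ⟨e, L, he, hL, hD⟩ := ih (fun w hw => hl w (by simp [hw]))
    have hprod : (l ++ [z]).prod = l.prod * z := by simp
    have hlen : (l ++ [z]).length = l.length + 1 := by simp
    rw [hprod, hlen, d.D_mul, hD]
    rcases hl z (by simp) with hz | ⟨N, hN, hz⟩
    · refine ⟨e + MonoidAlgebra.single (d.v l.prod) 1 * d.D z, L, ?_, by omega, by abel⟩
      have hz' : NS (d.D z) ≤ B := by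
        rcases hz with hz | hz
        · exact hX z hz
        · have := d.NS_D_inv z⁻¹
          rw [inv_inv] at this
          exact this.trans (hX _ hz)
      calc NS (e + MonoidAlgebra.single (d.v l.prod) 1 * d.D z)
          ≤ NS e + NS (MonoidAlgebra.single (d.v l.prod) 1 * d.D z) := NS_add _ _
        _ ≤ l.length * B + B := Nat.add_le_add he ((NS_single_mul _ _).trans hz')
        _ = (l.length + 1) * B := by ring
    · obtain ⟨w, ε, hε, hw⟩ : ∃ (w : Z) (ε : ℤ), ε.natAbs ≤ 1 ∧
          MonoidAlgebra.single (d.v l.prod) 1 * d.D z =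
            MonoidAlgebra.single w ε * d.D (g N) := by
        rcases hz with hz | hz
        · exact ⟨d.v l.prod, 1, by simp, by rw [hz]⟩
        · refine ⟨d.v l.prod * (d.v (g N))⁻¹, -1, by simp, ?_⟩
          have hz2 : z = (g N)⁻¹ := by rw [← hz, inv_inv]
          rw [hz2, d.D_inv, mul_neg, ← mul_assoc, MonoidAlgebra.single_mul_single, one_mul,
            MonoidAlgebra.single_neg, neg_mul]
      refine ⟨e, Function.update L N (L N + MonoidAlgebra.single w ε), ?_, ?_, ?_⟩
      · calc NS e ≤ l.length * B := he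
          _ ≤ (l.length + 1) * B := Nat.mul_le_mul_right _ (by omega)
      · have hmem : N ∈ Finset.range m := Finset.mem_range.mpr hN
        rw [← Finset.add_sum_erase _ _ hmem] at hL ⊢
        rw [Function.update_self]
        have h1 : ∑ x ∈ (Finset.range m).erase N,
            N1 (Function.update L N (L N + MonoidAlgebra.single w ε) x) =
            ∑ x ∈ (Finset.range m).erase N, N1 (L x) := by
          apply Finset.sum_congr rfl
          intro x hx
          rw [Function.update_of_ne (Finset.ne_of_mem_erase hx)]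
        rw [h1]
        have h2 := N1_add (L N) (MonoidAlgebra.single w ε)
        have h3 := N1_single w ε
        omega
      · have hmem : N ∈ Finset.range m := Finset.mem_range.mpr hN
        rw [← Finset.add_sum_erase _ _ hmem, ← Finset.add_sum_erase _ _ hmem,
          Function.update_self]
        have h1 : ∑ x ∈ (Finset.range m).erase N,
            Function.update L N (L N + MonoidAlgebra.single w ε) x * d.D (g x) =
            ∑ x ∈ (Finset.range m).erase N, L x * d.D (g x) := by
          apply Finset.sum_congr rfl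
          intro x hx
          rw [Function.update_of_ne (Finset.ne_of_mem_erase hx)]
        rw [h1, hw, add_mul]
        abel

section Rec

variable (B : ℕ) (c : P) (p : ℕ → P)

/-- the exponent `T` used at stage `n`, given the bound `G`. -/
def tt (B n G : ℕ) : ℕ := n * (B + G) + 1

/-- the exponent `M` used at stage `n`. -/
noncomputable def mm (n : ℕ) (s : ℕ × ℕ) : ℕ :=
  (s.2 + tt B n s.1) * NS (d.D c) + n * (B + s.1 + NS (d.D (p n))) + 1

/-- the recursion: first component bounds the earlier conjugates, second the earlier `T`. -/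
noncomputable def st : ℕ → ℕ × ℕ
  | 0 => (0, 0)
  | n + 1 =>
    ((st n).1 + NS (d.D (c ^ (mm d B c p n (st n)) * p n * (c ^ (mm d B c p n (st n)))⁻¹)),
      (st n).2 + tt B n (st n).1)

/-- the target exponents. -/
noncomputable def T (n : ℕ) : ℕ := tt B n (st d B c p n).1

/-- the conjugating exponents. -/
noncomputable def M (n : ℕ) : ℕ := mm d B c p n (st d B c p n)

/-- the chosen conjugates. -/
noncomputable def gg (n : ℕ) : P := c ^ (M d B c p n) * p n * (c ^ (M d B c p n))⁻¹

theorem st_succ_fst (n : ℕ) :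
    (st d B c p (n + 1)).1 = (st d B c p n).1 + NS (d.D (gg d B c p n)) := rfl

theorem st_succ_snd (n : ℕ) :
    (st d B c p (n + 1)).2 = (st d B c p n).2 + T d B c p n := rfl

theorem gg_le {n m : ℕ} (h : m < n) : NS (d.D (gg d B c p m)) ≤ (st d B c p n).1 := by
  induction n with
  | zero => omega
  | succ n ih =>
    rw [st_succ_fst]
    rcases Nat.lt_succ_iff_lt_or_eq.mp h with h | h
    · exact (ih h).trans (Nat.le_add_right _ _)
    · subst h
      omega

theorem T_le {n k : ℕ} (h : k < n) : T d B c p k ≤ (st d B c p n).2 := by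
  induction n with
  | zero => omega
  | succ n ih =>
    rw [st_succ_snd]
    rcases Nat.lt_succ_iff_lt_or_eq.mp h with h | h
    · exact (ih h).trans (Nat.le_add_right _ _)
    · subst h
      omega

theorem T_le' {n k : ℕ} (h : k ≤ n) :
    T d B c p k ≤ (st d B c p n).2 + tt B n (st d B c p n).1 := by
  rcases Nat.lt_or_eq_of_le h with h | h
  · exact (T_le d B c p h).trans (Nat.le_add_right _ _)
  · subst h
    exact Nat.le_add_left _ _

theorem M_eq (n : ℕ) : M d B c p n =
    ((st d B c p n).2 + tt B n (st d B c p n).1) * NS (d.D c) +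
      n * (B + (st d B c p n).1 + NS (d.D (p n))) + 1 := rfl

variable [NoZeroDivisors (MonoidAlgebra ℤ Z)]

/-- The core estimate. -/
theorem core (X : Set P) (hX : ∀ x ∈ X, NS (d.D x) ≤ B) (hc : d.v c = 1) (hq : d.D c ≠ 0)
    (hp : ∀ n, d.v (p n) ≠ 1) (k : ℕ) (l : List P) (hlen : l.length ≤ k)
    (hl : ∀ z ∈ l, z ∈ X ∪ Set.range (gg d B c p) ∨ z⁻¹ ∈ X ∪ Set.range (gg d B c p)) :
    d.D l.prod ≠ (T d B c p k) • d.D c := by
  classical
  intro heq
  -- all letters occur before stage m
  obtain ⟨m, hm⟩ : ∃ m : ℕ, ∀ z ∈ l, (z ∈ X ∨ z⁻¹ ∈ X) ∨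
      ∃ N < m, z = gg d B c p N ∨ z⁻¹ = gg d B c p N := by
    clear heq hlen
    induction l with
    | nil => exact ⟨0, by simp⟩
    | cons w l ih =>
      obtain ⟨m, hm⟩ := ih (fun z hz => hl z (List.mem_cons_of_mem _ hz))
      have hw := hl w (List.mem_cons_self)
      have hw' : (w ∈ X ∨ w⁻¹ ∈ X) ∨ ∃ N, w = gg d B c p N ∨ w⁻¹ = gg d B c p N := by
        rcases hw with (hw | ⟨N, hN⟩) | (hw | ⟨N, hN⟩)
        · exact Or.inl (Or.inl hw)
        · exact Or.inr ⟨N, Or.inl hN.symm⟩
        · exact Or.inl (Or.inr hw)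
        · exact Or.inr ⟨N, Or.inr hN.symm⟩
      rcases hw' with hw' | ⟨N, hN⟩
      · refine ⟨m, ?_⟩
        intro z hz
        rcases List.mem_cons.mp hz with rfl | hz
        · exact Or.inl hw'
        · exact hm z hz
      · refine ⟨max m (N + 1), ?_⟩
        intro z hz
        rcases List.mem_cons.mp hz with rfl | hz
        · exact Or.inr ⟨N, by omega, hN⟩
        · rcases hm z hz with h | ⟨N', hN', h⟩
          · exact Or.inl h
          · exact Or.inr ⟨N', by omega, h⟩
  obtain ⟨e, L, he, hL, hD⟩ := d.decomp X B hX (gg d B c p) m l hm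
  have he' : NS e ≤ k * B := he.trans (Nat.mul_le_mul_right _ hlen)
  have hL' : ∑ N ∈ Finset.range m, N1 (L N) ≤ k := hL.trans hlen
  rw [heq] at hD
  have hTq : NS ((T d B c p k) • d.D c) = T d B c p k * NS (d.D c) := NS_nsmul _ _
  have hq1 : 1 ≤ NS (d.D c) := NS_pos hq
  have hsum : ∀ (s : Finset ℕ) (G : ℕ), s ⊆ Finset.range m →
      (∀ N ∈ s, L N = 0 ∨ NS (d.D (gg d B c p N)) ≤ G) →
      NS (∑ N ∈ s, L N * d.D (gg d B c p N)) ≤ k * G := by
    intro s G hs hG
    have h1 : NS (∑ N ∈ s, L N * d.D (gg d B c p N)) ≤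
        ∑ N ∈ s, NS (L N * d.D (gg d B c p N)) := by
      clear hs hG
      induction s using Finset.induction_on with
      | empty => simp [NS_zero]
      | insert a s ha ih =>
        rw [Finset.sum_insert ha, Finset.sum_insert ha]
        exact (NS_add _ _).trans (Nat.add_le_add_left ih _)
    have h2 : ∑ N ∈ s, NS (L N * d.D (gg d B c p N)) ≤ ∑ N ∈ s, N1 (L N) * G := by
      apply Finset.sum_le_sum
      intro N hN
      rcases hG N hN with h0 | h0
      · rw [h0, zero_mul, NS_zero]
        exact Nat.zero_le _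
      · exact (NS_mul _ _).trans (Nat.mul_le_mul_left _ h0)
    have h3 : ∑ N ∈ s, N1 (L N) * G ≤ k * G := by
      rw [← Finset.sum_mul]
      apply Nat.mul_le_mul_right
      exact (Finset.sum_le_sum_of_subset hs).trans hL'
    exact h1.trans (h2.trans h3)
  by_cases hcase : ∃ N, N < m ∧ k ≤ N ∧ L N ≠ 0
  · -- take the maximal such N
    obtain ⟨N, hN, hmax⟩ : ∃ N, (N < m ∧ k ≤ N ∧ L N ≠ 0) ∧
        ∀ N', N' < m → N < N' → L N' = 0 := by
      have hfin : ∀ j, (∃ N, N < m ∧ k ≤ N ∧ L N ≠ 0 ∧ m ≤ N + j) →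
          ∃ N, (N < m ∧ k ≤ N ∧ L N ≠ 0) ∧ ∀ N', N' < m → N < N' → L N' = 0 := by
        intro j
        induction j with
        | zero =>
          rintro ⟨N, h1, _, _, h4⟩
          omega
        | succ j ih =>
          rintro ⟨N, h1, h2, h3, h4⟩
          by_cases h : ∃ N', N' < m ∧ N < N' ∧ L N' ≠ 0
          · obtain ⟨N', h5, h6, h7⟩ := h
            exact ih ⟨N', h5, by omega, h7, by omega⟩
          · push Not at h
            exact ⟨N, ⟨h1, h2, h3⟩, h⟩
      obtain ⟨N, h1, h2, h3⟩ := hcase
      exact hfin m ⟨N, h1, h2, h3, by omega⟩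
    obtain ⟨hNm, hkN, hLN⟩ := hN
    have hmem : N ∈ Finset.range m := Finset.mem_range.mpr hNm
    rw [← Finset.add_sum_erase _ _ hmem] at hD
    have hDg : d.D (gg d B c p N) = d.D (p N) +
        (M d B c p N) • ((1 - MonoidAlgebra.single (d.v (p N)) 1) * d.D c) :=
      d.D_conj hc _ _
    have h1 : (M d B c p N) • (L N * ((1 - MonoidAlgebra.single (d.v (p N)) 1) * d.D c)) =
        (T d B c p k) • d.D c - e - L N * d.D (p N) -
          ∑ x ∈ (Finset.range m).erase N, L x * d.D (gg d B c p x) := by
      rw [hD, hDg, mul_add, mul_smul_comm]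
      abel
    have hne : L N * ((1 - MonoidAlgebra.single (d.v (p N)) 1) * d.D c) ≠ 0 := by
      refine mul_ne_zero hLN (mul_ne_zero ?_ hq)
      intro h0
      have h2 : (1 : MonoidAlgebra ℤ Z) = MonoidAlgebra.single (d.v (p N)) 1 := sub_eq_zero.mp h0
      rw [MonoidAlgebra.one_def] at h2
      have h3 : (1 : Z) = d.v (p N) :=
        MonoidAlgebra.of_injective (R := ℤ) (M := Z) h2
      exact hp N h3.symm
    have hlow : M d B c p N ≤ NS ((M d B c p N) •
        (L N * ((1 - MonoidAlgebra.single (d.v (p N)) 1) * d.D c))) := by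
      rw [NS_nsmul]
      exact Nat.le_mul_of_pos_right _ (NS_pos hne)
    rw [h1] at hlow
    have hup1 := NS_sub ((T d B c p k) • d.D c - e - L N * d.D (p N))
      (∑ x ∈ (Finset.range m).erase N, L x * d.D (gg d B c p x))
    have hup2 := NS_sub ((T d B c p k) • d.D c - e) (L N * d.D (p N))
    have hup3 := NS_sub ((T d B c p k) • d.D c) e
    have hup4 : NS (L N * d.D (p N)) ≤ k * NS (d.D (p N)) := by
      refine (NS_mul _ _).trans (Nat.mul_le_mul_right _ ?_)
      exact (Finset.single_le_sum (f := fun N => N1 (L N)) (fun _ _ => Nat.zero_le _) hmem).trans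
        hL'
    have hup5 : NS (∑ x ∈ (Finset.range m).erase N, L x * d.D (gg d B c p x)) ≤
        k * (st d B c p N).1 := by
      apply hsum _ _ (Finset.erase_subset _ _)
      intro x hx
      have hxne := Finset.ne_of_mem_erase hx
      have hxm := Finset.mem_range.mp (Finset.mem_of_mem_erase hx)
      rcases lt_or_gt_of_ne hxne with h | h
      · exact Or.inr (gg_le d B c p h)
      · exact Or.inl (hmax x hxm h)
    rw [hTq] at hup3
    have hup6 : T d B c p k * NS (d.D c) ≤
        ((st d B c p N).2 + tt B N (st d B c p N).1) * NS (d.D c) :=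
      Nat.mul_le_mul_right _ (T_le' d B c p hkN)
    have hM := M_eq d B c p N
    have e1 : k * B ≤ N * B := Nat.mul_le_mul_right _ hkN
    have e2 : k * NS (d.D (p N)) ≤ N * NS (d.D (p N)) := Nat.mul_le_mul_right _ hkN
    have e3 : k * (st d B c p N).1 ≤ N * (st d B c p N).1 := Nat.mul_le_mul_right _ hkN
    have e4 : N * (B + (st d B c p N).1 + NS (d.D (p N))) =
        N * B + N * (st d B c p N).1 + N * NS (d.D (p N)) := by ring
    omega
  · push Not at hcase
    have h1 : NS (∑ x ∈ Finset.range m, L x * d.D (gg d B c p x)) ≤ k * (st d B c p k).1 := by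
      apply hsum _ _ (Finset.Subset.refl _)
      intro x hx
      have hxm := Finset.mem_range.mp hx
      rcases lt_or_ge x k with h | h
      · exact Or.inr (gg_le d B c p h)
      · exact Or.inl (hcase x hxm h)
    have h2 := NS_add e (∑ x ∈ Finset.range m, L x * d.D (gg d B c p x))
    rw [← hD, hTq] at h2
    have h3 : T d B c p k ≤ T d B c p k * NS (d.D c) := Nat.le_mul_of_pos_right _ hq1
    have h4 : T d B c p k = k * (B + (st d B c p k).1) + 1 := rfl
    have h5 : k * (B + (st d B c p k).1) = k * B + k * (st d B c p k).1 := by ring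
    omega

end Rec

end Crossed

end Q33.SC
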