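import Mathlib
import Pool.Agent.Q33.SC.Core

/-!
The group of pairs (element of the group ring, element of the commutative group), with
multiplication `(d, v) * (d', v') = (d + v d', v v')`.
-/

namespace Q33.SC

noncomputable section

/-- pairs of an element of the group ring and an element of the group. -/
@[ext] structure Wr (Z : Type*) [CommGroup Z] where
  d : MonoidAlgebra ℤ Z
  v : Z

namespace Wr

variable {Z : Type*} [CommGroup Z]

instance : Mul (Wr Z) := ⟨fun x y => ⟨x.d + MonoidAlgebra.single x.v 1 * y.d, x.v * y.v⟩⟩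
instance : One (Wr Z) := ⟨⟨0, 1⟩⟩
instance : Inv (Wr Z) := ⟨fun x => ⟨-(MonoidAlgebra.single x.v⁻¹ 1 * x.d), x.v⁻¹⟩⟩

@[simp] theorem mul_d (x y : Wr Z) : (x * y).d = x.d + MonoidAlgebra.single x.v 1 * y.d := rfl
@[simp] theorem mul_v (x y : Wr Z) : (x * y).v = x.v * y.v := rfl
@[simp] theorem one_d : (1 : Wr Z).d = 0 := rfl
@[simp] theorem one_v : (1 : Wr Z).v = 1 := rfl
@[simp] theorem inv_d (x : Wr Z) : (x⁻¹).d = -(MonoidAlgebra.single x.v⁻¹ 1 * x.d) := rfl
@[simp] theorem inv_v (x : Wr Z) : (x⁻¹).v = x.v⁻¹ := rfl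

instance : Group (Wr Z) :=
  Group.ofLeftAxioms
    (by
      intro x y z
      ext1
      · simp only [mul_d, mul_v]
        rw [mul_add, ← mul_assoc, MonoidAlgebra.single_mul_single, one_mul, add_assoc]
      · simp only [mul_v, mul_assoc])
    (by
      intro x
      ext1
      · simp only [mul_d, one_d, one_v]
        rw [← MonoidAlgebra.one_def, one_mul, zero_add]
      · simp only [mul_v, one_v, one_mul])
    (by
      intro x
      ext1
      · simp only [mul_d, inv_d, inv_v, one_d]
        abel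
      · simp only [mul_v, inv_v, one_v, inv_mul_cancel])

/-- the projection. -/
def proj : Wr Z →* Z where
  toFun := Wr.v
  map_one' := rfl
  map_mul' _ _ := rfl

/-- the kernel of the projection. -/
def ker : Multiplicative (MonoidAlgebra ℤ Z) →* Wr Z where
  toFun r := ⟨Multiplicative.toAdd r, 1⟩
  map_one' := rfl
  map_mul' x y := by
    ext1
    · simp only [mul_d]
      rw [← MonoidAlgebra.one_def, one_mul, toAdd_mul]
    · simp only [mul_v, mul_one]

theorem comm_eq (x y : Wr Z) :
    x * y * x⁻¹ * y⁻¹ = ker (Multiplicative.ofAdd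
      ((1 - MonoidAlgebra.single y.v 1) * x.d - (1 - MonoidAlgebra.single x.v 1) * y.d)) := by
  ext1
  · simp only [mul_d, inv_d, mul_v, inv_v, ker, MonoidHom.coe_mk, OneHom.coe_mk, toAdd_ofAdd]
    have h1 : MonoidAlgebra.single (x.v * y.v) (1 : ℤ) *
        -(MonoidAlgebra.single x.v⁻¹ 1 * x.d) = -(MonoidAlgebra.single y.v 1 * x.d) := by
      rw [mul_neg, ← mul_assoc, MonoidAlgebra.single_mul_single, one_mul]
      congr 3
      rw [mul_comm x.v, mul_assoc, mul_inv_cancel, mul_one]
    have h2 : MonoidAlgebra.single (x.v * y.v * x.v⁻¹) (1 : ℤ) *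
        -(MonoidAlgebra.single y.v⁻¹ 1 * y.d) = -y.d := by
      rw [mul_neg, ← mul_assoc, MonoidAlgebra.single_mul_single, one_mul]
      have : x.v * y.v * x.v⁻¹ * y.v⁻¹ = 1 := by
        rw [mul_comm x.v, mul_assoc y.v, mul_inv_cancel, mul_one, mul_inv_cancel]
      rw [this, ← MonoidAlgebra.one_def, one_mul]
    rw [h1, h2, sub_mul, sub_mul, one_mul, one_mul]
    abel
  · simp only [mul_v, inv_v, ker, MonoidHom.coe_mk, OneHom.coe_mk]
    rw [mul_comm x.v, mul_assoc y.v, mul_inv_cancel, mul_one, mul_inv_cancel]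

/-- a homomorphism to `Wr Z` gives a crossed homomorphism. -/
def crossed {P : Type*} [Group P] (F : P →* Wr Z) : Crossed P Z where
  v := proj.comp F
  D x := (F x).d
  D_mul x y := by rw [map_mul]; rfl

end Wr

end

end Q33.SC
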